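import Pool.Agent.Q95.VD3.FluxA

/-!
The Morrey bound for the vorticity from the condition on the double cone.
-/

set_option autoImplicit false

open MeasureTheory Set Metric Filter Topology
open scoped ENNReal ContDiff
open H459R3.NS Pool.Agent.W268.NS Pool.Agent.Q67.VD Pool.Agent.Q67.VD3 Pool.Agent.Q199.VD

namespace Pool.Agent.Q95.VD3

/-- the regularised sign -/
noncomputable def gg (ε t : ℝ) : ℝ := t / √(t ^ 2 + ε ^ 2)

/-- its derivative -/
noncomputable def dg (ε t : ℝ) : ℝ := ε ^ 2 / (t ^ 2 + ε ^ 2) / √(t ^ 2 + ε ^ 2)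

theorem pos_q {ε : ℝ} (hε : 0 < ε) (t : ℝ) : 0 < t ^ 2 + ε ^ 2 := by positivity

theorem gg_deriv {ε : ℝ} (hε : 0 < ε) (t : ℝ) : HasDerivAt (gg ε) (dg ε t) t := by
  have hq := pos_q hε t
  have hs : 0 < √(t ^ 2 + ε ^ 2) := Real.sqrt_pos.2 hq
  have h1 : HasDerivAt (fun t : ℝ => t ^ 2 + ε ^ 2) (2 * t) t := by
    simpa using (hasDerivAt_pow 2 t).add_const (ε ^ 2)
  have h2 := h1.sqrt hq.ne'
  have h3 := (hasDerivAt_id t).div h2 hs.ne'
  have h4 : (1 * √(t ^ 2 + ε ^ 2) - id t * (2 * t / (2 * √(t ^ 2 + ε ^ 2))))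
      / √(t ^ 2 + ε ^ 2) ^ 2 = dg ε t := by
    unfold dg
    have h5 : √(t ^ 2 + ε ^ 2) ^ 2 = t ^ 2 + ε ^ 2 := Real.sq_sqrt hq.le
    rw [h5, id]
    have h6 : 1 * √(t ^ 2 + ε ^ 2) - t * (2 * t / (2 * √(t ^ 2 + ε ^ 2)))
        = ε ^ 2 / √(t ^ 2 + ε ^ 2) := by
      rw [eq_div_iff hs.ne', sub_mul]
      have h7 : t * (2 * t / (2 * √(t ^ 2 + ε ^ 2))) * √(t ^ 2 + ε ^ 2) = t ^ 2 := by
        field_simp
      rw [h7, one_mul, ← sq, h5]
      ring
    rw [h6]
    field_simp
  rw [← h4]
  exact h3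

theorem gg_smooth {ε : ℝ} (hε : 0 < ε) : ContDiff ℝ ∞ (gg ε) := by
  unfold gg
  have h1 : ContDiff ℝ ∞ (fun t : ℝ => t ^ 2 + ε ^ 2) := (contDiff_id.pow 2).add contDiff_const
  exact contDiff_id.div (h1.sqrt fun t => (pos_q hε t).ne')
    fun t => (Real.sqrt_pos.2 (pos_q hε t)).ne'

theorem dg_nonneg (ε t : ℝ) : 0 ≤ dg ε t := by unfold dg; positivity

theorem dg_le {ε : ℝ} (hε : 0 < ε) (t : ℝ) : |t| * dg ε t ≤ 1 := by
  have hq := pos_q hε t
  have hs : 0 < √(t ^ 2 + ε ^ 2) := Real.sqrt_pos.2 hq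
  have h1 : |t| ≤ √(t ^ 2 + ε ^ 2) := by
    rw [← Real.sqrt_sq_eq_abs]
    exact Real.sqrt_le_sqrt (by nlinarith [sq_nonneg ε])
  have h2 : ε ^ 2 / (t ^ 2 + ε ^ 2) ≤ 1 := by
    rw [div_le_one hq]; nlinarith [sq_nonneg t]
  unfold dg
  rw [← mul_div_assoc, div_le_one hs]
  calc |t| * (ε ^ 2 / (t ^ 2 + ε ^ 2)) ≤ |t| * 1 :=
        mul_le_mul_of_nonneg_left h2 (abs_nonneg t)
    _ = |t| := mul_one _
    _ ≤ _ := h1

theorem dg_tendsto (t : ℝ) :
    Tendsto (fun n : ℕ => |t| * dg (1 / ((n : ℝ) + 1)) t) atTop (𝓝 0) := by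
  by_cases ht : t = 0
  · simp [ht]
  · have h1 : Tendsto (fun n : ℕ => 1 / ((n : ℝ) + 1)) atTop (𝓝 0) :=
      tendsto_one_div_add_atTop_nhds_zero_nat
    have h2 : ContinuousAt (fun ε : ℝ => |t| * dg ε t) 0 := by
      unfold dg
      have hp : (0 : ℝ) < t ^ 2 + 0 ^ 2 := by positivity
      refine continuousAt_const.mul (ContinuousAt.div (ContinuousAt.div ?_ ?_ hp.ne') ?_
        (Real.sqrt_pos.2 hp).ne')
      · exact continuousAt_id.pow 2
      · exact continuousAt_const.add (continuousAt_id.pow 2)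
      · exact (continuousAt_const.add (continuousAt_id.pow 2)).sqrt
    have h3 := h2.tendsto.comp h1
    have h4 : |t| * dg 0 t = 0 := by simp [dg]
    rw [h4] at h3
    exact h3

theorem gg_low {ε : ℝ} (hε : 0 < ε) (t : ℝ) : |t| - ε ≤ gg ε t * t := by
  have hq := pos_q hε t
  have hs : 0 < √(t ^ 2 + ε ^ 2) := Real.sqrt_pos.2 hq
  have h1 : √(t ^ 2 + ε ^ 2) ≤ |t| + ε := by
    rw [Real.sqrt_le_left (by positivity)]
    rw [add_sq, sq_abs]
    nlinarith [abs_nonneg t]
  unfold gg
  rw [div_mul_eq_mul_div, le_div_iff₀ hs]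
  by_cases h2 : ε ≤ |t|
  · calc (|t| - ε) * √(t ^ 2 + ε ^ 2) ≤ (|t| - ε) * (|t| + ε) :=
          mul_le_mul_of_nonneg_left h1 (by linarith)
      _ = |t| ^ 2 - ε ^ 2 := by ring
      _ ≤ t * t := by rw [sq_abs]; nlinarith [sq_nonneg ε]
  · rw [not_le] at h2
    have h3 : (|t| - ε) * √(t ^ 2 + ε ^ 2) ≤ 0 :=
      mul_nonpos_of_nonpos_of_nonneg (by linarith) hs.le
    nlinarith [mul_self_nonneg t]

theorem gg_nonneg {ε : ℝ} (t : ℝ) : 0 ≤ gg ε t * t := by
  unfold gg
  rw [div_mul_eq_mul_div]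
  exact div_nonneg (mul_self_nonneg t) (Real.sqrt_nonneg _)

theorem gg_abs {ε : ℝ} (hε : 0 < ε) (t : ℝ) : |gg ε t| ≤ 1 := by
  have hq := pos_q hε t
  have hs : 0 < √(t ^ 2 + ε ^ 2) := Real.sqrt_pos.2 hq
  have h1 : |t| ≤ √(t ^ 2 + ε ^ 2) := by
    rw [← Real.sqrt_sq_eq_abs]
    exact Real.sqrt_le_sqrt (by nlinarith [sq_nonneg ε])
  unfold gg
  rw [abs_div, abs_of_pos hs, div_le_one hs]
  exact h1

theorem sp_const (c : ℝ) : SP (fun _ : V => c) := ⟨contDiff_const, fun _ _ => rfl⟩

theorem fluxU : StmFluxU := by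
  obtain ⟨D, hD, hcut⟩ := exists_cut
  refine ⟨480 * D, by positivity, ?_⟩
  intro v R κ L hv hdiv hR hκ hκ1 hL hLx hcone x r hr hr8
  set w := vort v with hw
  have hom : ∀ y, |om v y| = om v y := fun y => abs_of_nonneg (Q199.VD.om_nonneg v y)
  simp_rw [hom]
  have omI : ∀ x ρ, IntegrableOn (om v) (closedBall x ρ) := fun x ρ =>
    (om_cont hv).continuousOn.integrableOn_compact (isCompact_closedBall _ _)
  by_cases hcase : ∀ y ∈ closedBall x r, om v y = 0
  · rw [setIntegral_congr_fun measurableSet_closedBall hcase, integral_zero]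
    positivity
  push Not at hcase
  obtain ⟨y0, hy0, hMy0⟩ := hcase
  have hom0 : 0 < om v y0 := lt_of_le_of_ne (Q199.VD.om_nonneg v y0) (Ne.symm hMy0)
  set e : V := fun i => w y0 i / om v y0 with he
  have hee : e ⬝ᵥ e = 1 := by
    have h1 : e ⬝ᵥ e = (w y0 ⬝ᵥ w y0) / om v y0 ^ 2 := by
      simp only [dotProduct, he, Finset.sum_div]
      exact Finset.sum_congr rfl fun i _ => by field_simp
    rw [h1, ← om_sq v y0, div_self (by positivity)]
  have hle : len e = 1 := by rw [len, hee, Real.sqrt_one]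
  have hei : ∀ i, |e i| ≤ 1 := fun i => (Q199.VD.abs_le_len e i).trans hle.le
  have hew : ∀ y, e ⬝ᵥ w y = (w y0 ⬝ᵥ w y) / om v y0 := fun y => by
    simp only [dotProduct, he, Finset.sum_div]
    exact Finset.sum_congr rfl fun i _ => by ring
  have hclose : ∀ y ∈ closedBall x (R / 2), ‖y0 - y‖ ≤ R := fun y hy => by
    rw [← dist_eq_norm]
    have h1 := dist_triangle_right y0 y x
    have h2 := mem_closedBall.1 hy0
    have h3 := mem_closedBall.1 hy
    linarith
  set a : V → ℝ := fun y => e ⬝ᵥ w y with ha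
  have hlow : ∀ y ∈ closedBall x (R / 2), κ * om v y ≤ |a y| := by
    intro y hy
    have h1 := hcone y0 y (hclose y hy)
    have h2 : |a y| = |w y0 ⬝ᵥ w y| / om v y0 := by
      show |e ⬝ᵥ w y| = _
      rw [hew, abs_div, abs_of_pos hom0]
    rw [h2, le_div_iff₀ hom0]
    calc κ * om v y * om v y0 = κ * (om v y0 * om v y) := by ring
      _ ≤ _ := h1
  have asp : SP a := by
    have h1 : SP (fun y => ∑ i, e i * w y i) :=
      SP.sum fun i _ => (sp_const (e i)).mul (Q199.VD.sp_vort hv i)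
    exact h1
  obtain ⟨χ, hχ, hs, hχ0, hχ1, hone, hzero, hpd, hpd0⟩ := hcut x (R / 8) (by positivity)
  rw [show 2 * (R / 8) = R / 4 by ring] at hzero hpd0
  set s : V → ℝ := fun y => (e ⬝ᵥ (y - x)) / r with hsdef
  have hscont : Continuous s := by
    have h1 : Continuous (fun y : V => ∑ i, e i * (y i - x i)) :=
      continuous_finsetSum _ fun i _ => continuous_const.mul
        ((continuous_apply i).sub continuous_const)
    exact h1.div_const r
  have hden : ∀ y, 0 < 1 + s y ^ 2 := fun y => by positivity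
  have hat : ∀ y, |Real.arctan (s y)| ≤ 2 := fun y => by
    rw [abs_le]
    have hpi := Real.pi_lt_four
    have a1 := Real.neg_pi_div_two_lt_arctan (s y)
    have a2 := Real.arctan_lt_pi_div_two (s y)
    constructor <;> linarith
  have hsle : ∀ y ∈ closedBall x r, |s y| ≤ 3 := by
    intro y hy
    have h1 : ∀ i, |y i - x i| ≤ r := fun i => by
      have := (dist_pi_le_iff hr.le).1 (mem_closedBall.1 hy) i
      rwa [Real.dist_eq] at this
    have h2 : ∀ i, |e i * (y i - x i)| ≤ r := fun i => by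
      rw [abs_mul]
      calc |e i| * |y i - x i| ≤ 1 * r := mul_le_mul (hei i) (h1 i) (abs_nonneg _) zero_le_one
        _ = r := one_mul r
    have h3 : |e ⬝ᵥ (y - x)| ≤ 3 * r := by
      have e1 : e ⬝ᵥ (y - x) = e 0 * (y 0 - x 0) + e 1 * (y 1 - x 1) + e 2 * (y 2 - x 2) := by
        simp only [dotProduct, Fin.sum_univ_three, Pi.sub_apply]
      rw [e1]
      refine (abs_add_three _ _ _).trans ?_
      linarith [h2 0, h2 1, h2 2]
    show |(e ⬝ᵥ (y - x)) / r| ≤ 3
    rw [abs_div, abs_of_pos hr, div_le_iff₀ hr]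
    exact h3
  set z : ℝ → Fin 3 → V → ℝ := fun ε i y => gg ε (a y) * w y i with hz
  have hzs : ∀ ε, 0 < ε → ∀ i, SP (z ε i) := fun ε hε i =>
    (sp_comp asp (gg_smooth hε)).mul (Q199.VD.sp_vort hv i)
  -- the divergence
  have hdz : ∀ ε, 0 < ε → ∀ y, ∑ i, pd i (z ε i) y = dg ε (a y) * ∑ i, pd i a y * w y i := by
    intro ε hε y
    have h1 : ∀ i, pd i (z ε i) y
        = gg ε (a y) * pd i (fun y => w y i) y + dg ε (a y) * (pd i a y * w y i) := by
      intro i
      have h2 := pd_mul (sp_comp asp (gg_smooth hε)) (Q199.VD.sp_vort hv i) i y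
      have h3 := pd_comp asp (gg_smooth hε) i y
      rw [(gg_deriv hε (a y)).deriv] at h3
      rw [h3] at h2
      refine h2.trans ?_
      ring
    simp_rw [h1]
    rw [Finset.sum_add_distrib, ← Finset.mul_sum, ← Finset.mul_sum, div_vort hv y, mul_zero,
      zero_add]
  set F : ℝ → V → ℝ := fun ε y => χ y * (r * Real.arctan (s y)) * ∑ i, pd i (z ε i) y with hF
  set B : V → ℝ := fun y => χ y * (2 * r) * κ⁻¹ * ∑ i, |pd i a y| with hB
  have hBc : Continuous B := by
    refine ((hχ.continuous.mul continuous_const).mul continuous_const).mul ?_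
    exact continuous_finsetSum _ fun i _ => (asp.pd i).cont.abs
  have hBi : Integrable B :=
    hBc.integrable_of_hasCompactSupport hs.mul_right.mul_right.mul_right
  have hB0 : ∀ y, 0 ≤ B y := fun y => mul_nonneg (mul_nonneg (mul_nonneg (hχ0 y)
    (by positivity)) (inv_nonneg.2 hκ.le)) (Finset.sum_nonneg fun i _ => abs_nonneg _)
  have hFb : ∀ ε, 0 < ε → ∀ y, |F ε y| ≤ B y * (|a y| * dg ε (a y)) := by
    intro ε hε y
    by_cases hy : y ∈ closedBall x (R / 4)
    · have h1 := hlow y (closedBall_subset_closedBall (by linarith) hy)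
      have h2 : |∑ i, pd i a y * w y i| ≤ (∑ i, |pd i a y|) * om v y := by
        rw [Finset.sum_mul]
        refine (Finset.abs_sum_le_sum_abs _ _).trans (Finset.sum_le_sum fun i _ => ?_)
        rw [abs_mul]
        exact mul_le_mul_of_nonneg_left (Q199.VD.abs_le_len (w y) i) (abs_nonneg _)
      have h3 : om v y ≤ κ⁻¹ * |a y| := by
        rw [inv_mul_eq_div, le_div_iff₀ hκ, mul_comm]
        exact h1
      have hS0 : 0 ≤ ∑ i, |pd i a y| := Finset.sum_nonneg fun i _ => abs_nonneg _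
      have h4 : |∑ i, pd i a y * w y i| ≤ (∑ i, |pd i a y|) * (κ⁻¹ * |a y|) :=
        h2.trans (mul_le_mul_of_nonneg_left h3 hS0)
      show |χ y * (r * Real.arctan (s y)) * ∑ i, pd i (z ε i) y| ≤ _
      rw [hdz ε hε y, abs_mul, abs_mul, abs_mul, abs_mul, abs_of_nonneg (hχ0 y), abs_of_pos hr,
        abs_of_nonneg (dg_nonneg ε (a y))]
      have h5 : χ y * (r * |Real.arctan (s y)|) ≤ χ y * (2 * r) := by
        refine mul_le_mul_of_nonneg_left ?_ (hχ0 y)
        have := mul_le_mul_of_nonneg_left (hat y) hr.le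
        linarith
      calc χ y * (r * |Real.arctan (s y)|) * (dg ε (a y) * |∑ i, pd i a y * w y i|)
          ≤ χ y * (2 * r) * (dg ε (a y) * ((∑ i, |pd i a y|) * (κ⁻¹ * |a y|))) :=
            mul_le_mul h5 (mul_le_mul_of_nonneg_left h4 (dg_nonneg _ _))
              (mul_nonneg (dg_nonneg _ _) (abs_nonneg _))
              (mul_nonneg (hχ0 y) (by positivity))
        _ = _ := by simp only [hB]; ring
    · have h1 : F ε y = 0 := by
        show χ y * (r * Real.arctan (s y)) * _ = 0
        rw [hzero y hy, zero_mul, zero_mul]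
      rw [h1, abs_zero]
      exact mul_nonneg (hB0 y) (mul_nonneg (abs_nonneg _) (dg_nonneg _ _))
  have hFc : ∀ ε, 0 < ε → Continuous (F ε) := fun ε hε =>
    (hχ.continuous.mul (continuous_const.mul (Real.continuous_arctan.comp hscont))).mul
      (continuous_finsetSum _ fun i _ => ((hzs ε hε i).pd i).cont)
  have hlim : Tendsto (fun n : ℕ => ∫ y, F (1 / ((n : ℝ) + 1)) y) atTop (𝓝 0) := by
    have h1 : Tendsto (fun n : ℕ => ∫ y, F (1 / ((n : ℝ) + 1)) y) atTop
        (𝓝 (∫ _ : V, (0 : ℝ))) := by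
      refine tendsto_integral_of_dominated_convergence B
        (fun n => (hFc _ (by positivity)).aestronglyMeasurable) hBi
        (fun n => Eventually.of_forall fun y => ?_) (Eventually.of_forall fun y => ?_)
      · rw [Real.norm_eq_abs]
        refine (hFb _ (by positivity) y).trans ?_
        exact mul_le_of_le_one_right (hB0 y) (dg_le (by positivity) _)
      · have h2 : Tendsto (fun n : ℕ => B y * (|a y| * dg (1 / ((n : ℝ) + 1)) (a y))) atTop
            (𝓝 0) := by
          have := (dg_tendsto (a y)).const_mul (B y)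
          rwa [mul_zero] at this
        exact squeeze_zero_norm (fun n => by
          rw [Real.norm_eq_abs]
          exact hFb _ (by positivity) y) h2
    simpa using h1
  set I4 := ∫ y in closedBall x (R / 4), om v y with hI4
  set I := ∫ y in closedBall x r, om v y with hI
  have key : ∀ ε, 0 < ε → κ / 10 * I
      ≤ 48 * D * r / R * I4 - (∫ y, F ε y) + (2 * r) ^ 3 * ε := by
    intro ε hε
    have hid := flux_idd (hzs ε hε) hχ hs e x hr
    have hez : ∀ y, ∑ i, e i * z ε i y = gg ε (a y) * a y := fun y => by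
      show ∑ i, e i * (gg ε (a y) * w y i) = gg ε (a y) * ∑ i, e i * w y i
      rw [Finset.mul_sum]
      exact Finset.sum_congr rfl fun i _ => by ring
    simp_rw [hez] at hid
    have hgc : Continuous (fun y => gg ε (a y) * a y) :=
      ((gg_smooth hε).continuous.comp asp.cont).mul asp.cont
    have hqi : Integrable (fun y => χ y * (1 + s y ^ 2)⁻¹ * (gg ε (a y) * a y)) :=
      ((hχ.continuous.mul ((continuous_const.add (hscont.pow 2)).inv₀ fun y =>
          (hden y).ne')).mul hgc).integrable_of_hasCompactSupport hs.mul_right.mul_right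
    have hqn : ∀ y, 0 ≤ χ y * (1 + s y ^ 2)⁻¹ * (gg ε (a y) * a y) := fun y =>
      mul_nonneg (mul_nonneg (hχ0 y) (inv_nonneg.2 (hden y).le)) (gg_nonneg (a y))
    have h1 : κ / 10 * I
        ≤ (∫ y in closedBall x r, χ y * (1 + s y ^ 2)⁻¹ * (gg ε (a y) * a y))
          + (2 * r) ^ 3 * ε := by
      have hce : ∫ _ in closedBall x r, ε = (2 * r) ^ 3 * ε := by
        rw [setIntegral_const, Q199.VD.vol_ball x hr.le, smul_eq_mul]
      have hci : IntegrableOn (fun _ : V => ε) (closedBall x r) :=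
        continuous_const.continuousOn.integrableOn_compact (isCompact_closedBall _ _)
      rw [← hce, ← integral_add hqi.integrableOn hci, hI, ← integral_const_mul]
      refine setIntegral_mono_on ((omI x _).const_mul _) (hqi.integrableOn.add hci)
        measurableSet_closedBall fun y hy => ?_
      have hy2 : y ∈ closedBall x (R / 2) := closedBall_subset_closedBall (by linarith) hy
      show κ / 10 * om v y ≤ χ y * (1 + s y ^ 2)⁻¹ * (gg ε (a y) * a y) + ε
      rw [hone y (closedBall_subset_closedBall hr8 hy), one_mul]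
      have h2 : (1 / 10 : ℝ) ≤ (1 + s y ^ 2)⁻¹ := by
        rw [one_div]
        refine inv_anti₀ (hden y) ?_
        have := sq_le_sq' (by linarith [(abs_le.1 (hsle y hy)).1]) (abs_le.1 (hsle y hy)).2
        linarith
      have h3 : 1 / 10 * (gg ε (a y) * a y) ≤ (1 + s y ^ 2)⁻¹ * (gg ε (a y) * a y) :=
        mul_le_mul_of_nonneg_right h2 (gg_nonneg _)
      have h4 := gg_low hε (a y)
      have h5 := hlow y hy2
      linarith
    have h2 : ∫ y in closedBall x r, χ y * (1 + s y ^ 2)⁻¹ * (gg ε (a y) * a y)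
        ≤ ∫ y, χ y * (1 + s y ^ 2)⁻¹ * (gg ε (a y) * a y) :=
      setIntegral_le_integral hqi (Eventually.of_forall hqn)
    have h3 : ∀ i, -∫ y, pd i χ y * (r * Real.arctan (s y) * z ε i y) ≤ 16 * D * r / R * I4 := by
      intro i
      have hfc : Continuous (fun y => r * Real.arctan (s y) * z ε i y) :=
        (continuous_const.mul (Real.continuous_arctan.comp hscont)).mul (hzs ε hε i).cont
      have h4 := cut_bound (χ := χ) (x := x) (ρ := R / 4) (j := i) hfc (hpd i) (hpd0 i)
      have h5 : ∫ y in closedBall x (R / 4), |r * Real.arctan (s y) * z ε i y|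
          ≤ ∫ y in closedBall x (R / 4), (2 * r) * om v y := by
        refine setIntegral_mono_on
          (hfc.abs.continuousOn.integrableOn_compact (isCompact_closedBall _ _))
          ((continuous_const.mul (om_cont hv)).continuousOn.integrableOn_compact
            (isCompact_closedBall _ _)) measurableSet_closedBall fun y _ => ?_
        rw [abs_mul, abs_mul, abs_of_pos hr]
        have h7 : |z ε i y| ≤ om v y := by
          show |gg ε (a y) * w y i| ≤ _
          rw [abs_mul]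
          calc |gg ε (a y)| * |w y i| ≤ 1 * om v y :=
                mul_le_mul (gg_abs hε _) (Q199.VD.abs_le_len (w y) i) (abs_nonneg _) zero_le_one
            _ = _ := one_mul _
        calc r * |Real.arctan (s y)| * |z ε i y|
            ≤ (r * 2) * om v y :=
              mul_le_mul (mul_le_mul_of_nonneg_left (hat y) hr.le) h7 (abs_nonneg _)
                (by positivity)
          _ = _ := by ring
      rw [integral_const_mul] at h5
      have h9 : D / (R / 8) * (2 * r * I4) = 16 * D * r / R * I4 := by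
        field_simp
        ring
      rw [← h9]
      refine (neg_le_abs _).trans (h4.trans ?_)
      exact mul_le_mul_of_nonneg_left h5 (by positivity)
    have h4 : ∫ y, χ y * (1 + s y ^ 2)⁻¹ * (gg ε (a y) * a y)
        ≤ 48 * D * r / R * I4 - ∫ y, F ε y := by
      rw [hid, Fin.sum_univ_three]
      have a0 := h3 0
      have a1 := h3 1
      have a2 := h3 2
      have e1 : 48 * D * r / R * I4 = 3 * (16 * D * r / R * I4) := by ring
      rw [e1]
      show -((∫ y, pd 0 χ y * (r * Real.arctan (s y) * z ε 0 y))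
        + (∫ y, pd 1 χ y * (r * Real.arctan (s y) * z ε 1 y))
        + ∫ y, pd 2 χ y * (r * Real.arctan (s y) * z ε 2 y)) - (∫ y, F ε y) ≤ _
      linarith
    linarith
  have hfin : κ / 10 * I ≤ 48 * D * r / R * I4 := by
    have h1 : Tendsto (fun n : ℕ => 48 * D * r / R * I4 - (∫ y, F (1 / ((n : ℝ) + 1)) y)
        + (2 * r) ^ 3 * (1 / ((n : ℝ) + 1))) atTop
        (𝓝 (48 * D * r / R * I4 - 0 + (2 * r) ^ 3 * 0)) :=
      (tendsto_const_nhds.sub hlim).add
        (tendsto_one_div_add_atTop_nhds_zero_nat.const_mul _)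
    rw [mul_zero, add_zero, sub_zero] at h1
    exact ge_of_tendsto' h1 fun n => key _ (by positivity)
  have hI4L : I4 ≤ L := hLx x
  have h1 : κ / 10 * I ≤ 48 * D * r / R * L :=
    hfin.trans (mul_le_mul_of_nonneg_left hI4L (by positivity))
  have h4 : I = 10 / κ * (κ / 10 * I) := by field_simp
  have h5 : 480 * D / κ * (L / R) * r = 10 / κ * (48 * D * r / R * L) := by
    field_simp
    ring
  rw [h4, h5]
  exact mul_le_mul_of_nonneg_left h1 (by positivity)

end Pool.Agent.Q95.VD3
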