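import Pool.Agent.Q67.VD3.Stm
import Pool.Agent.Q199.VD.Flux

/-!
The Morrey bound for the vorticity from the condition on the double cone.
-/

set_option autoImplicit false

open MeasureTheory Set Metric Filter Topology
open scoped ENNReal ContDiff
open H459R3.NS Pool.Agent.W268.NS Pool.Agent.Q67.VD Pool.Agent.Q67.VD3 Pool.Agent.Q199.VD

namespace Pool.Agent.Q95.VD3

/-- The flux identity with a divergence. -/
theorem flux_idd {z : Fin 3 → V → ℝ} (hz : ∀ i, SP (z i)) {χ : V → ℝ} (hχ : ContDiff ℝ ∞ χ) (hs : HasCompactSupport χ) (e x : V) {r : ℝ} (hr : 0 < r) :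
    ∫ y, χ y * (1 + ((e ⬝ᵥ (y - x)) / r) ^ 2)⁻¹ * ∑ i, e i * z i y
      = -(∑ i, ∫ y, pd i χ y * (r * Real.arctan ((e ⬝ᵥ (y - x)) / r) * z i y))
        - ∫ y, χ y * (r * Real.arctan ((e ⬝ᵥ (y - x)) / r)) * ∑ i, pd i (z i) y := by
  set s : V → ℝ := fun y => (e ⬝ᵥ (y - x)) / r with hsdef
  have hlin : ∀ y, HasFDerivAt (fun y : V => e ⬝ᵥ (y - x))
      (∑ i, e i • (ContinuousLinearMap.proj i : V →L[ℝ] ℝ)) y := by
    intro y
    have h1 : HasFDerivAt (fun y : V => ∑ i, e i * (y i - x i))
        (∑ i, e i • (ContinuousLinearMap.proj i : V →L[ℝ] ℝ)) y := by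
      refine HasFDerivAt.fun_sum fun i _ => ?_
      exact ((ContinuousLinearMap.proj (R := ℝ) (φ := fun _ : Fin 3 => ℝ) i).hasFDerivAt.sub_const
        (x i)).const_mul (e i)
    exact h1
  have hsm : ContDiff ℝ ∞ s := by
    have h1 : ContDiff ℝ ∞ (fun y : V => ∑ i, e i * (y i - x i)) :=
      ContDiff.sum fun i _ => contDiff_const.mul ((contDiff_apply ℝ ℝ i).sub contDiff_const)
    exact h1.div_const r
  have hds : ∀ y, HasFDerivAt s (r⁻¹ • ∑ i, e i • (ContinuousLinearMap.proj i : V →L[ℝ] ℝ)) y := by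
    intro y
    have := (hlin y).mul_const r⁻¹
    exact this
  have hA : ContDiff ℝ ∞ (fun y => r * Real.arctan (s y)) :=
    contDiff_const.mul (Real.contDiff_arctan.comp hsm)
  have hF : ContDiff ℝ ∞ (fun y => χ y * (r * Real.arctan (s y))) := hχ.mul hA
  have hFs : HasCompactSupport (fun y => χ y * (r * Real.arctan (s y))) := hs.mul_right
  have hpd : ∀ i y, pd i (fun y => χ y * (r * Real.arctan (s y))) y
      = pd i χ y * (r * Real.arctan (s y)) + χ y * (1 + s y ^ 2)⁻¹ * e i := by
    intro i y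
    have h1 : HasFDerivAt (fun y => r * Real.arctan (s y))
        (r • ((1 / (1 + s y ^ 2)) • (r⁻¹ • ∑ i, e i • (ContinuousLinearMap.proj i : V →L[ℝ] ℝ)))) y :=
      (HasFDerivAt.arctan (hds y)).const_mul r
    have h2 : HasFDerivAt (fun y => χ y * (r * Real.arctan (s y))) _ y :=
      ((hχ.differentiable (by norm_num) y).hasFDerivAt).mul h1
    unfold pd
    rw [h2.fderiv]
    have h3 : (∑ k, e k • (ContinuousLinearMap.proj k : V →L[ℝ] ℝ)) (Pi.single i 1) = e i := by
      rw [sum_apply]
      rw [Finset.sum_eq_single i]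
      · show e i * (Pi.single i (1 : ℝ) : V) i = e i
        rw [Pi.single_eq_same, mul_one]
      · intro k _ hk
        show e k * (Pi.single i (1 : ℝ) : V) k = 0
        rw [Pi.single_eq_of_ne hk, mul_zero]
      · intro h; exact absurd (Finset.mem_univ i) h
    show χ y * (r * (1 / (1 + s y ^ 2) * (r⁻¹ *
      (∑ k, e k • (ContinuousLinearMap.proj k : V →L[ℝ] ℝ)) (Pi.single i 1))))
      + r * Real.arctan (s y) * fderiv ℝ χ y (Pi.single i 1) = _
    rw [h3]
    field_simp
    ring
  have hI : ∀ i, Integrable (fun y => pd i (fun y => χ y * (r * Real.arctan (s y))) y * z i y) := by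
    intro i
    have c1 : Continuous (fun y => fderiv ℝ (fun y => χ y * (r * Real.arctan (s y))) y
        (Pi.single i 1)) := (hF.continuous_fderiv (by norm_num)).clm_apply continuous_const
    exact (c1.mul (hz i).cont).integrable_of_hasCompactSupport (hFs.fderiv_apply (𝕜 := ℝ) _).mul_right
  have h0 : ∑ i, ∫ y, pd i (fun y => χ y * (r * Real.arctan (s y))) y * z i y
      = -∫ y, χ y * (r * Real.arctan (s y)) * ∑ i, pd i (z i) y := by
    have h1 : ∀ i, ∫ y, pd i (fun y => χ y * (r * Real.arctan (s y))) y * z i y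
        = -∫ y, χ y * (r * Real.arctan (s y)) * pd i (z i) y := by
      intro i
      rw [ibp_cut (hF.of_le (by norm_cast)) hFs ((hz i).smooth.of_le (by norm_cast)) i, neg_neg]
    simp_rw [h1]
    rw [Finset.sum_neg_distrib, ← integral_finsetSum]
    · have : ∀ y, ∑ i, χ y * (r * Real.arctan (s y)) * pd i (z i) y
          = χ y * (r * Real.arctan (s y)) * ∑ i, pd i (z i) y := fun y => by
        rw [← Finset.mul_sum]
      simp_rw [this]
    · intro i _
      exact (hF.continuous.mul ((hz i).pd i).cont).integrable_of_hasCompactSupport hFs.mul_right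
  have hJ : ∀ i, Integrable (fun y => pd i χ y * (r * Real.arctan (s y) * z i y)) := by
    intro i
    have c1 : Continuous (fun y => fderiv ℝ χ y (Pi.single i 1)) :=
      (hχ.continuous_fderiv (by norm_num)).clm_apply continuous_const
    exact (c1.mul (hA.continuous.mul (hz i).cont)).integrable_of_hasCompactSupport
      (hs.fderiv_apply (𝕜 := ℝ) _).mul_right
  have hK : ∀ i, Integrable (fun y => χ y * (1 + s y ^ 2)⁻¹ * (e i * z i y)) := by
    intro i
    have c1 : Continuous (fun y => (1 + s y ^ 2)⁻¹) :=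
      (continuous_const.add (hsm.continuous.pow 2)).inv₀ fun y => by
        show 1 + s y ^ 2 ≠ 0
        have := sq_nonneg (s y)
        linarith
    exact ((hχ.continuous.mul c1).mul (continuous_const.mul (hz i).cont)).integrable_of_hasCompactSupport
      (hs.mul_right.mul_right)
  have h1 : ∀ i, ∫ y, pd i (fun y => χ y * (r * Real.arctan (s y))) y * z i y
      = (∫ y, pd i χ y * (r * Real.arctan (s y) * z i y))
        + ∫ y, χ y * (1 + s y ^ 2)⁻¹ * (e i * z i y) := by
    intro i
    rw [← integral_add (hJ i) (hK i)]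
    refine integral_congr_ae (Eventually.of_forall fun y => ?_)
    show pd i (fun y => χ y * (r * Real.arctan (s y))) y * z i y = _
    rw [hpd]
    ring
  simp_rw [h1] at h0
  rw [Finset.sum_add_distrib, ← integral_finsetSum (f := fun i y => χ y * (1 + s y ^ 2)⁻¹ * (e i * z i y))
    _ fun i _ => hK i] at h0
  have h2 : ∀ y, ∑ i, χ y * (1 + s y ^ 2)⁻¹ * (e i * z i y)
      = χ y * (1 + s y ^ 2)⁻¹ * ∑ i, e i * z i y := fun y => by rw [Finset.mul_sum]
  simp_rw [h2] at h0
  show ∫ y, χ y * (1 + s y ^ 2)⁻¹ * ∑ i, e i * z i y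
    = -(∑ i, ∫ y, pd i χ y * (r * Real.arctan (s y) * z i y))
      - ∫ y, χ y * (r * Real.arctan (s y)) * ∑ i, pd i (z i) y
  linarith


end Pool.Agent.Q95.VD3
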